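import Pool.Agent.H73.ST.Stm3
set_option autoImplicit false

namespace Pool.Agent.Helper9ST

open Submodule Module Pool.Agent.H73.ST

lemma card_span {ι V : Type*} [AddCommGroup V] [Module ℚ V] {f : ι → V} {A : Finset ι}
    (hA : LinearIndepOn ℚ f (A : Set ι)) :
    finrank ℚ (span ℚ (f '' (A : Set ι))) = A.card := by
  have h := finrank_span_eq_card (R := ℚ) (b := fun x : (A : Set ι) => f x) hA
  have e : Set.range (fun x : (A : Set ι) => f x) = f '' (A : Set ι) := by
    ext y; simp
  rw [e] at h
  rw [h]
  simp

lemma exch {ι V : Type*} [AddCommGroup V] [Module ℚ V] {f : ι → V} {A B : Finset ι}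
    (hA : LinearIndepOn ℚ f (A : Set ι)) (hB : LinearIndepOn ℚ f (B : Set ι))
    (h : A.card < B.card) :
    ∃ x ∈ B, x ∉ A ∧ LinearIndepOn ℚ f (insert x (A : Set ι)) := by
  by_contra hcon
  push Not at hcon
  have h1 : ∀ x ∈ B, f x ∈ span ℚ (f '' (A : Set ι)) := by
    intro x hx
    by_contra h2
    have h3 : x ∉ A := fun h3 => h2 (subset_span ⟨x, h3, rfl⟩)
    exact hcon x hx h3 (hA.insert h2)
  have h2 : span ℚ (f '' (B : Set ι)) ≤ span ℚ (f '' (A : Set ι)) := by
    rw [span_le]
    rintro _ ⟨x, hx, rfl⟩
    exact h1 x hx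
  have : FiniteDimensional ℚ (span ℚ (f '' (A : Set ι))) :=
    FiniteDimensional.span_of_finite ℚ (A.finite_toSet.image f)
  have h3 := Submodule.finrank_mono h2
  rw [card_span hA, card_span hB] at h3
  omega

lemma li_list {α V : Type*} [DecidableEq α] [AddCommGroup V] [Module ℚ V] (f : α → V)
    (l : List α) (hl : l.Nodup) :
    LinearIndependent ℚ (fun i : Fin l.length => f (l.get i)) ↔
      LinearIndepOn ℚ f ((l.toFinset : Finset α) : Set α) := by
  have h := linearIndependent_equiv (R := ℚ) (List.Nodup.getEquiv l hl)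
    (f := fun x : {x // x ∈ l} => f x)
  have e1 : ((fun x : {x // x ∈ l} => f x) ∘ (List.Nodup.getEquiv l hl)) =
      fun i : Fin l.length => f (l.get i) := by
    funext i
    simp [List.Nodup.getEquiv]
  rw [e1] at h
  rw [h]
  have e2 : ((l.toFinset : Finset α) : Set α) = {x | x ∈ l} := by
    ext x; simp
  rw [e2]
  rfl

/-! ### masks -/

lemma sel_cons {γ : Type} (a : γ) (T : List γ) (b : Bool) (y : List Bool) :
    sel (a :: T) (b :: y) = if b = true then a :: sel T y else sel T y := by
  unfold sel
  cases b <;> simp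

lemma mem_sel {γ : Type} : ∀ (T : List γ) (y : List Bool), y.length = T.length → ∀ x : γ,
    x ∈ sel T y ↔ ∃ i, ∃ h : i < T.length, T[i] = x ∧ y.getD i false = true := by
  intro T
  induction T with
  | nil => intro y _ x; simp [sel]
  | cons a T ih =>
    intro y hy x
    cases y with
    | nil => simp at hy
    | cons b y =>
      have hy' : y.length = T.length := by simpa using hy
      rw [sel_cons]
      constructor
      · intro h
        split_ifs at h with hb
        · rcases List.mem_cons.1 h with h | h
          · exact ⟨0, by simp, by simp [h], by simp [hb]⟩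
          · obtain ⟨i, hi, h1, h2⟩ := (ih y hy' x).1 h
            exact ⟨i + 1, by simpa using hi, by simpa using h1, by simpa using h2⟩
        · obtain ⟨i, hi, h1, h2⟩ := (ih y hy' x).1 h
          exact ⟨i + 1, by simpa using hi, by simpa using h1, by simpa using h2⟩
      · rintro ⟨i, hi, h1, h2⟩
        cases i with
        | zero =>
          simp only [List.getElem_cons_zero] at h1
          simp only [List.getD_cons_zero] at h2
          rw [if_pos h2, h1]
          exact List.mem_cons_self
        | succ i =>
          have h3 : x ∈ sel T y := (ih y hy' x).2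
            ⟨i, by simpa using hi, by simpa using h1, by simpa using h2⟩
          split_ifs
          · exact List.mem_cons_of_mem _ h3
          · exact h3

lemma sel_sublist {γ : Type} : ∀ (T : List γ) (y : List Bool), (sel T y).Sublist T := by
  intro T
  induction T with
  | nil => intro y; simp [sel]
  | cons a T ih =>
    intro y
    cases y with
    | nil => simp [sel]
    | cons b y =>
      rw [sel_cons]
      split_ifs
      · exact (ih y).cons_cons a
      · exact (ih y).cons a

lemma length_sel {γ : Type} : ∀ (T : List γ) (y : List Bool), y.length = T.length →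
    (sel T y).length = cntT y := by
  intro T
  induction T with
  | nil =>
    intro y hy
    have : y = [] := List.length_eq_zero_iff.1 (by simpa using hy)
    subst this
    simp [sel, cntT]
  | cons a T ih =>
    intro y hy
    cases y with
    | nil => simp at hy
    | cons b y =>
      have hy' : y.length = T.length := by simpa using hy
      have h := ih y hy'
      rw [sel_cons]
      unfold cntT at h ⊢
      cases b <;> simp [h]

lemma sel_filter {γ : Type} (f : γ → Bool) : ∀ T : List γ,
    sel T (T.map f) = T.filter f := by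
  intro T
  induction T with
  | nil => simp [sel]
  | cons a T ih =>
    rw [List.map_cons, sel_cons, ih, List.filter_cons]

lemma filter_of_sublist {γ : Type} {S T : List γ} (h : S.Sublist T)
    (hT : T.Nodup) : ∀ f : γ → Bool, (∀ x ∈ T, f x = true ↔ x ∈ S) → T.filter f = S := by
  induction h with
  | slnil => intro f _; rfl
  | cons a h ih =>
    rename_i S T
    intro f hf
    have h1 : a ∉ S := fun h2 => (List.nodup_cons.1 hT).1 (h.subset h2)
    have h3 : ¬ f a = true := fun h4 => h1 ((hf a (by simp)).1 h4)
    rw [List.filter_cons, if_neg h3]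
    exact ih (List.nodup_cons.1 hT).2 f fun x hx => hf x (List.mem_cons_of_mem _ hx)
  | cons_cons a h ih =>
    rename_i S T
    intro f hf
    rw [List.filter_cons, if_pos ((hf a (by simp)).2 (by simp))]
    congr 1
    refine ih (List.nodup_cons.1 hT).2 f fun x hx => ?_
    have h2 : x ≠ a := fun h2 => (List.nodup_cons.1 hT).1 (h2 ▸ hx)
    rw [hf x (List.mem_cons_of_mem _ hx)]
    simp [h2]

/-! ### boundaries -/

lemma sum_ite {α : Type*} (P : α → Prop) [DecidablePred P] (c : α → ℚ) (L : List α) :
    (L.map fun p => if P p then c p else 0).sum =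
      ((L.filter fun p => decide (P p)).map c).sum := by
  induction L with
  | nil => simp
  | cons a L ih =>
    rw [List.map_cons, List.sum_cons, ih, List.filter_cons]
    by_cases h : P a
    · simp [h]
    · simp [h]

/-- the face without the vertex `v` -/
def del (σ : List ℕ) (v : ℕ) : List ℕ := σ.filter fun w => decide (w ≠ v)

lemma mem_del {σ : List ℕ} {v w : ℕ} : w ∈ del σ v ↔ w ∈ σ ∧ w ≠ v := by
  simp [del]

lemma matches_unique {σ : List ℕ} (hσ : σ.Nodup) (τ : List ℕ) {p q : ℕ × ℕ}
    (hp : p ∈ σ.zipIdx) (hq : q ∈ σ.zipIdx) (h1 : del σ p.1 = τ) (h2 : del σ q.1 = τ) :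
    p = q := by
  obtain ⟨a, i⟩ := p
  obtain ⟨b, j⟩ := q
  have ha := List.mem_zipIdx hp
  have hb := List.mem_zipIdx hq
  simp only [zero_add, Nat.zero_le, Nat.sub_zero, true_and] at ha hb
  obtain ⟨hi, ha⟩ := ha
  obtain ⟨hj, hb⟩ := hb
  have hab : a = b := by
    by_contra hne
    have h3 : b ∈ del σ a := mem_del.2 ⟨by rw [hb]; exact List.getElem_mem _, fun h => hne h.symm⟩
    rw [h1, ← h2] at h3
    exact (mem_del.1 h3).2 rfl
  subst hab
  have h3 : i = j := by
    have h4 : σ[i] = σ[j] := by rw [← ha, ← hb]
    exact (hσ.getElem_inj_iff).1 h4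
  rw [h3]

lemma zipIdx_nodup (σ : List ℕ) : (σ.zipIdx).Nodup := by
  have h : ((σ.zipIdx).map Prod.snd).Nodup := by
    rw [List.zipIdx_map_snd]
    exact List.nodup_range'
  exact List.Nodup.of_map _ h

lemma code_bd {σ : List ℕ} (hσ : σ.Nodup) (τ : List ℕ) :
    ((dv' (code σ τ) : ℤ) : ℚ) = bd σ τ := by
  have h1 : bd σ τ = (((σ.zipIdx.filter fun p => decide (del σ p.1 = τ)).map
      fun p => (-1 : ℚ) ^ p.2).sum) := by
    unfold bd
    exact sum_ite (fun p : ℕ × ℕ => del σ p.1 = τ) (fun p => (-1 : ℚ) ^ p.2) σ.zipIdx
  have h2 : code σ τ = (((σ.zipIdx.filter fun p => decide (del σ p.1 = τ)).map fun p =>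
    1 + p.2 % 2).head?).getD 0 := rfl
  have h3 : ∀ p ∈ σ.zipIdx.filter fun p => decide (del σ p.1 = τ),
      ∀ q ∈ σ.zipIdx.filter fun p => decide (del σ p.1 = τ), p = q := by
    intro p hp q hq
    simp only [List.mem_filter, decide_eq_true_eq] at hp hq
    exact matches_unique hσ τ hp.1 hq.1 hp.2 hq.2
  have h4 : (σ.zipIdx.filter fun p => decide (del σ p.1 = τ)).Nodup := (zipIdx_nodup σ).filter _
  rw [h1, h2]
  generalize (σ.zipIdx.filter fun p => decide (del σ p.1 = τ)) = L at h3 h4
  match L, h3, h4 with
  | [], _, _ => simp [dv']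
  | [p], _, _ =>
    simp only [List.map_cons, List.map_nil, List.head?_cons, Option.getD_some, List.sum_cons,
      List.sum_nil, add_zero]
    rcases Nat.even_or_odd p.2 with h | h
    · rw [Nat.even_iff.1 h, h.neg_one_pow]; simp [dv']
    · rw [Nat.odd_iff.1 h, h.neg_one_pow]; simp [dv']
  | p :: q :: L, h3, h4 =>
    exact absurd (h3 p (by simp) q (by simp)) (by
      intro h
      rw [h] at h4
      simp at h4)

lemma two_le_maxLen {F : List (List ℕ)} (hF : IsComplex F) : 2 ≤ maxLen F := by
  obtain ⟨σ, hσ, h⟩ := hF.dim_pos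
  refine h.trans ?_
  unfold maxLen
  clear h hF
  induction F with
  | nil => simp at hσ
  | cons a F ih =>
    simp only [List.map_cons, List.foldr_cons]
    rcases List.mem_cons.1 hσ with h | h
    · rw [h]; exact le_max_left _ _
    · exact (ih h).trans (le_max_right _ _)

lemma mem_tp {F : List (List ℕ)} {σ : List ℕ} : σ ∈ tp F ↔ σ ∈ F ∧ σ.length = maxLen F := by
  simp [tp]

lemma bd_support {F : List (List ℕ)} (hF : IsComplex F) {σ : List ℕ} (hσ : σ ∈ tp F)
    {τ : List ℕ} (h : bd σ τ ≠ 0) : τ ∈ F := by
  obtain ⟨hσF, hσl⟩ := mem_tp.1 hσ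
  have h2 : 2 ≤ σ.length := hσl ▸ two_le_maxLen hF
  have hnd : σ.Nodup := (hF.sorted σ hσF).2.imp (fun h => ne_of_lt h)
  have h1 : ∃ p ∈ σ.zipIdx, del σ p.1 = τ := by
    by_contra hcon
    push Not at hcon
    apply h
    unfold bd
    apply List.sum_eq_zero
    intro x hx
    obtain ⟨p, hp, rfl⟩ := List.mem_map.1 hx
    exact if_neg (hcon p hp)
  obtain ⟨p, hp, rfl⟩ := h1
  refine hF.down σ hσF _ List.filter_sublist ?_
  intro h3
  have h4 : ∀ w ∈ σ, w = p.1 := by
    intro w hw
    by_contra hne
    have : w ∈ del σ p.1 := mem_del.2 ⟨hw, hne⟩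
    rw [show del σ p.1 = [] from h3] at this
    simp at this
  match σ, h2, hnd, h4 with
  | a :: b :: L, _, hnd, h4 =>
    have e1 := h4 a (by simp)
    have e2 := h4 b (by simp)
    rw [e1, e2] at hnd
    simp at hnd

/-- the vector of the coordinates of a function at the faces of `F` -/
noncomputable def coords (F : List (List ℕ)) : (List ℕ → ℚ) →ₗ[ℚ] (Fin F.length → ℚ) :=
  LinearMap.funLeft ℚ ℚ fun j => F.get j

/-- the function with given values at the faces of `F` -/
noncomputable def extend (F : List (List ℕ)) : (Fin F.length → ℚ) →ₗ[ℚ] (List ℕ → ℚ) where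
  toFun w τ := ∑ j, if F.get j = τ then w j else 0
  map_add' w w' := by
    funext τ
    simp only [Pi.add_apply]
    rw [← Finset.sum_add_distrib]
    exact Finset.sum_congr rfl fun j _ => by split_ifs <;> simp
  map_smul' c w := by
    funext τ
    simp only [Pi.smul_apply, smul_eq_mul, RingHom.id_apply]
    rw [Finset.mul_sum]
    exact Finset.sum_congr rfl fun j _ => by split_ifs <;> simp

lemma extend_coords {F : List (List ℕ)} (hF : IsComplex F) {σ : List ℕ} (hσ : σ ∈ tp F) :
    extend F (coords F (bd σ)) = bd σ := by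
  funext τ
  show (∑ j, if F.get j = τ then bd σ (F.get j) else 0) = bd σ τ
  by_cases hτ : τ ∈ F
  · obtain ⟨i, hi⟩ := List.get_of_mem hτ
    rw [Finset.sum_eq_single i]
    · rw [if_pos hi, hi]
    · intro j _ hji
      rw [if_neg]
      intro h
      exact hji (hF.nodup.get_inj_iff.1 (h.trans hi.symm))
    · intro h
      exact absurd (Finset.mem_univ _) h
  · have h1 : bd σ τ = 0 := by
      by_contra h
      exact hτ (bd_support hF hσ h)
    rw [h1]
    apply Finset.sum_eq_zero
    intro j _
    rw [if_neg]
    intro h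
    exact hτ (h ▸ List.get_mem _ _)

lemma row_getD {F : List (List ℕ)} {σ : List ℕ} (hσ : σ.Nodup) (j : Fin F.length) :
    ((dv' ((row F σ).getD j 0) : ℤ) : ℚ) = coords F (bd σ) j := by
  have h1 : (row F σ).getD j 0 = code σ (F.get j) := by
    unfold row
    rw [List.getD_eq_getElem?_getD, List.getElem?_map, List.getElem?_eq_getElem j.2]
    rfl
  rw [h1, code_bd hσ]
  rfl

/-- independence of the faces of a mask -/
lemma ind_iff {t : List (List ℕ) → Bool} (ht : IndSpec t) {F : List (List ℕ)}
    (hF : IsComplex F) (y : List Bool) :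
    indF t (F, y) = true ↔
      LinearIndepOn ℚ bd (((sel (tp F) y).toFinset : Finset (List ℕ)) : Set (List ℕ)) := by
  set S := sel (tp F) y with hS
  have hST : S.Sublist (tp F) := sel_sublist _ _
  have hTn : (tp F).Nodup := hF.nodup.filter _
  have hSn : S.Nodup := hST.nodup hTn
  have hmem : ∀ σ ∈ S, σ ∈ tp F := fun σ h => hST.subset h
  have hnd : ∀ σ ∈ S, σ.Nodup := fun σ h =>
    (hF.sorted σ (mem_tp.1 (hmem σ h)).1).2.imp (fun h => ne_of_lt h)
  have h1 := ht F.length (S.map (row F)) (by
    intro v hv
    obtain ⟨σ, -, rfl⟩ := List.mem_map.1 hv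
    simp [row])
  have h2 : indF t (F, y) = t (S.map (row F)) := rfl
  rw [h2, h1, ← li_list bd S hSn]
  have hlen : (S.map (row F)).length = S.length := by simp
  have h3 : (fun i : Fin (S.map (row F)).length => fun j : Fin F.length =>
      ((dv' (((S.map (row F)).get i).getD j 0) : ℤ) : ℚ)) =
      (fun i : Fin S.length => coords F (bd (S.get i))) ∘ (finCongr hlen) := by
    funext i j
    have h4 : (S.map (row F)).get i = row F (S.get (finCongr hlen i)) := by
      simp
    rw [h4]
    exact row_getD (hnd _ (List.get_mem _ _)) j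
  rw [h3, linearIndependent_equiv]
  constructor
  · intro h
    exact h.of_comp (coords F)
  · intro h
    have h4 : (fun i : Fin S.length => bd (S.get i)) =
        (extend F) ∘ (fun i : Fin S.length => coords F (bd (S.get i))) := by
      funext i
      exact (extend_coords hF (hmem _ (List.get_mem _ _))).symm
    rw [h4] at h
    exact h.of_comp (extend F)

/-! ### the matroid -/

lemma sel_finset_mono {T : List (List ℕ)} {y z : List Bool} (hy : y.length = T.length)
    (hz : z.length = T.length) (h : ∀ i, z.getD i false = true → y.getD i false = true) :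
    ((sel T z).toFinset : Set (List ℕ)) ⊆ ((sel T y).toFinset : Set (List ℕ)) := by
  intro x hx
  rw [Finset.mem_coe, List.mem_toFinset, mem_sel T z hz] at hx
  rw [Finset.mem_coe, List.mem_toFinset, mem_sel T y hy]
  obtain ⟨i, hi, h1, h2⟩ := hx
  exact ⟨i, hi, h1, h i h2⟩

lemma length_setT (N k : ℕ) (y : List Bool) : (setT N k y).length = N := by simp [setT]

lemma getD_setT {N k i : ℕ} (hi : i < N) (y : List Bool) :
    (setT N k y).getD i false = if i = k then true else y.getD i false := by
  unfold setT
  rw [List.getD_eq_getElem?_getD, List.getElem?_map, List.getElem?_range hi]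
  rfl

lemma sel_setT {T : List (List ℕ)} {y : List Bool} (hy : y.length = T.length) {k : ℕ}
    (hk : k < T.length) :
    ((sel T (setT T.length k y)).toFinset : Set (List ℕ)) =
      insert T[k] ((sel T y).toFinset : Set (List ℕ)) := by
  ext x
  rw [Finset.mem_coe, List.mem_toFinset, mem_sel T _ (length_setT _ _ _), Set.mem_insert_iff,
    Finset.mem_coe, List.mem_toFinset, mem_sel T y hy]
  constructor
  · rintro ⟨i, hi, h1, h2⟩
    rw [getD_setT hi] at h2
    split_ifs at h2 with h3
    · subst h3
      exact Or.inl h1.symm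
    · exact Or.inr ⟨i, hi, h1, h2⟩
  · rintro (h | ⟨i, hi, h1, h2⟩)
    · exact ⟨k, hk, h.symm, by rw [getD_setT hk, if_pos rfl]⟩
    · refine ⟨i, hi, h1, ?_⟩
      rw [getD_setT hi, h2]
      simp

lemma card_sel {T : List (List ℕ)} (hT : T.Nodup) {y : List Bool} (hy : y.length = T.length) :
    (sel T y).toFinset.card = cntT y := by
  rw [List.toFinset_card_of_nodup ((sel_sublist T y).nodup hT), length_sel T y hy]

/-- **Part TREE.** -/
theorem t_TREE : S_TREE := by
  intro t ht F hF
  have hTn : (tp F).Nodup := hF.nodup.filter _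
  have hind := fun y => ind_iff ht hF y
  have haug : ∀ y z : List Bool, y.length = (tp F).length → z.length = (tp F).length →
      indF t (F, y) = true → indF t (F, z) = true → cntT y < cntT z →
      ∃ i < (tp F).length, y.getD i false = false ∧ z.getD i false = true ∧
        indF t (F, setT (tp F).length i y) = true := by
    intro y z hy hz hIy hIz hlt
    rw [← card_sel hTn hy, ← card_sel hTn hz] at hlt
    obtain ⟨x, hxz, hxy, hx⟩ := exch ((hind y).1 hIy) ((hind z).1 hIz) hlt
    rw [List.mem_toFinset, mem_sel _ z hz] at hxz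
    obtain ⟨i, hi, h1, h2⟩ := hxz
    refine ⟨i, hi, ?_, h2, ?_⟩
    · by_contra h3
      have h4 : y.getD i false = true := by
        cases h : y.getD i false
        · exact absurd h h3
        · rfl
      exact hxy (List.mem_toFinset.2 ((mem_sel _ y hy x).2 ⟨i, hi, h1, h4⟩))
    · rw [hind, sel_setT hy hi, h1]
      exact hx
  refine ⟨⟨?_, ?_, haug⟩, ?_, ?_⟩
  · rw [hind]
    have h1 : sel (tp F) ((List.range (tp F).length).map fun _ => false) = [] := by
      rw [List.eq_nil_iff_forall_not_mem]
      intro x hx
      rw [mem_sel _ _ (by simp)] at hx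
      obtain ⟨i, hi, -, h2⟩ := hx
      rw [List.getD_eq_getElem?_getD, List.getElem?_map, List.getElem?_range hi] at h2
      simp at h2
    rw [h1]
    simp
  · intro y z hy hz h hI
    rw [hind] at hI ⊢
    exact hI.mono (sel_finset_mono hy hz h)
  · -- trees and bases
    intro S
    constructor
    · rintro ⟨hST, hli, hsp⟩
      have hSn : S.Nodup := hST.nodup hTn
      set y : List Bool := (tp F).map fun x => decide (x ∈ S) with hy
      have hyl : y.length = (tp F).length := by simp [hy]
      have hsel : sel (tp F) y = S := by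
        rw [hy, sel_filter]
        exact filter_of_sublist hST hTn _ fun x _ => by simp
      refine ⟨y, ⟨hyl, ?_, ?_⟩, hsel.symm⟩
      · rw [hind, hsel, ← li_list bd S hSn]
        exact hli
      · intro z hz hIz
        have hIz' := (hind z).1 hIz
        rw [← card_sel hTn hz, ← card_sel hTn hyl, hsel, ← card_span hIz',
          ← card_span ((li_list bd S hSn).1 hli)]
        have hfin : FiniteDimensional ℚ (span ℚ (bd '' ((S.toFinset : Finset (List ℕ)) :
            Set (List ℕ)))) :=
          FiniteDimensional.span_of_finite ℚ ((Finset.finite_toSet _).image bd)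
        refine Submodule.finrank_mono ?_
        rw [span_le]
        rintro _ ⟨σ, hσ, rfl⟩
        rw [Finset.mem_coe, List.mem_toFinset] at hσ
        have h1 := hsp σ ((sel_sublist _ _).subset hσ)
        have h2 : bd '' {τ | τ ∈ S} = bd '' ((S.toFinset : Finset (List ℕ)) : Set (List ℕ)) := by
          congr 1
          ext τ
          simp
        rw [h2] at h1
        exact h1
    · rintro ⟨y, ⟨hyl, hI, hmax⟩, rfl⟩
      have hSn : (sel (tp F) y).Nodup := (sel_sublist _ _).nodup hTn
      refine ⟨sel_sublist _ _, ?_, ?_⟩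
      · exact (li_list bd _ hSn).2 ((hind y).1 hI)
      · intro σ hσ
        by_contra hcon
        have h2 : bd '' {τ | τ ∈ sel (tp F) y} =
            bd '' (((sel (tp F) y).toFinset : Finset (List ℕ)) : Set (List ℕ)) := by
          congr 1
          ext τ
          simp
        rw [h2] at hcon
        obtain ⟨k, hk, hkσ⟩ := List.getElem_of_mem hσ
        have hI2 : indF t (F, setT (tp F).length k y) = true := by
          rw [hind, sel_setT hyl hk, hkσ]
          exact ((hind y).1 hI).insert hcon
        have h3 := hmax _ (length_setT _ _ _) hI2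
        rw [← card_sel hTn (length_setT _ _ _), ← card_sel hTn hyl] at h3
        have h4 : (sel (tp F) y).toFinset ⊂ (sel (tp F) (setT (tp F).length k y)).toFinset := by
          rw [← Finset.coe_ssubset, sel_setT hyl hk, hkσ]
          refine Set.ssubset_insert ?_
          intro h5
          exact hcon (subset_span ⟨σ, h5, rfl⟩)
        exact absurd (Finset.card_lt_card h4) (not_lt.2 h3)
  · -- injectivity
    intro y z hy hz h
    refine List.ext_getElem (hy.trans hz.symm) fun i hi1 hi2 => ?_
    have hiT : i < (tp F).length := hy ▸ hi1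
    have key : ∀ w : List Bool, (hw : w.length = (tp F).length) →
        ((tp F)[i] ∈ sel (tp F) w ↔ w.getD i false = true) := by
      intro w hw
      rw [mem_sel _ w hw]
      constructor
      · rintro ⟨j, hj, h1, h2⟩
        have h3 : j = i := hTn.getElem_inj_iff.1 h1
        rw [← h3]
        exact h2
      · intro h2
        exact ⟨i, hiT, rfl, h2⟩
    have h1 := key y hy
    have h2 := key z hz
    rw [h] at h1
    have h3 : y.getD i false = true ↔ z.getD i false = true := h1.symm.trans h2
    rw [List.getD_eq_getElem _ _ hi1, List.getD_eq_getElem _ _ hi2] at h3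
    exact Bool.eq_iff_iff.2 h3

end Pool.Agent.Helper9ST
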