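import Pool.Agent.Helper60.CP.Stm4
import Pool.Agent.H206R2.Rot.TG

/-!
# Part 4R: the periodic geodesics of the round metric of `S^(4n)`
-/

set_option autoImplicit false

open Real Set MeasureTheory
open scoped ContDiff LinearAlgebra.Projectivization Quaternion

namespace Pool.Agent.Helper9ST

open Pool.Agent.Helper60.CP Pool.Agent.H206R2

lemma innerQ_hasDeriv {n : ℕ} (x : Hn n) {y : ℝ → Hn n} {y' : Hn n} {t : ℝ}
    (hy : HasDerivAt y y' t) :
    HasDerivAt (fun t => (inner ℝ x (y t) : ℝ)) (inner ℝ x y' : ℝ) t :=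
  (innerSL ℝ x).hasFDerivAt.comp_hasDerivAt t hy

lemma cdQ {E : Type*} [NormedAddCommGroup E] [NormedSpace ℝ E] {g : ℝ → E} (hg : ContDiff ℝ 2 g) :
    (∀ t, HasDerivAt g (deriv g t) t) ∧ (∀ t, HasDerivAt (deriv g) (deriv (deriv g) t) t) := by
  have h2 : ContDiff ℝ (1 + 1) g := by
    have : (1 + 1 : WithTop ℕ∞) = 2 := by norm_num
    rw [this]; exact hg
  have h3 : ContDiff ℝ 1 (deriv g) := (contDiff_succ_iff_deriv.1 h2).2.2
  exact ⟨fun t => (hg.differentiable (by norm_num)).differentiableAt.hasDerivAt,
    fun t => (h3.differentiable (by norm_num)).differentiableAt.hasDerivAt⟩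

theorem t_4R : S4_R := by
  intro n γ v T hv hT hγ hper
  obtain ⟨r, z, hr, hz, hnz, hγe, h1, h2, h3⟩ := hγ
  obtain ⟨hr1, hr2⟩ := cdQ hr
  obtain ⟨hz1, hz2⟩ := cdQ hz
  have harg : ∀ x : ℝ, π * x / π = x := fun x => by
    have := Real.pi_ne_zero
    field_simp
  have hds : deriv Real.sin = Real.cos := Real.deriv_sin
  have e1 : ∀ t, deriv (deriv r) t = Real.sin (r t) * Real.cos (r t) * ‖deriv z t‖ ^ 2 := by
    intro t
    rw [h1 t, hds]
    ring
  have e3 : ∀ t, deriv r t ^ 2 + Real.sin (r t) ^ 2 * ‖deriv z t‖ ^ 2 = v ^ 2 := by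
    intro t
    rw [← h3 t]
    ring
  have hp1 : ∀ t, Real.sin (r (t + T)) • z (t + T) = Real.sin (r t) • z t := by
    intro t
    have := congrArg Prod.fst (hper t)
    rw [hγe, hγe] at this
    simpa only [harg] using this
  have hp2 : ∀ t, Real.cos (r (t + T)) = Real.cos (r t) := by
    intro t
    have := congrArg Prod.snd (hper t)
    rw [hγe, hγe] at this
    simpa only [harg] using this
  have hzz : ∀ t, (inner ℝ (z t) (deriv z t) : ℝ) = 0 := by
    intro t
    have hn : (fun t => (inner ℝ (z t) (z t) : ℝ)) = fun _ => (1 : ℝ) := by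
      funext s
      rw [real_inner_self_eq_norm_sq, hnz]
      norm_num
    have hd : HasDerivAt (fun t => (inner ℝ (z t) (z t) : ℝ))
        (inner ℝ (z t) (deriv z t) + inner ℝ (deriv z t) (z t)) t := (hz1 t).inner ℝ (hz1 t)
    rw [hn] at hd
    have h0 := hd.unique (hasDerivAt_const t (1 : ℝ))
    rw [real_inner_comm (z t) (deriv z t)] at h0
    linarith
  have hzz2 : ∀ t, (inner ℝ (z t) (deriv (deriv z) t) : ℝ) = -‖deriv z t‖ ^ 2 := by
    intro t
    have hd : HasDerivAt (fun t => (inner ℝ (z t) (deriv z t) : ℝ))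
        (inner ℝ (z t) (deriv (deriv z) t) + inner ℝ (deriv z t) (deriv z t)) t :=
      (hz1 t).inner ℝ (hz2 t)
    have hc : (fun t => (inner ℝ (z t) (deriv z t) : ℝ)) = fun _ => (0 : ℝ) := funext hzz
    rw [hc] at hd
    have h0 := hd.unique (hasDerivAt_const t (0 : ℝ))
    rw [real_inner_self_eq_norm_sq] at h0
    linarith
  have hm : ∀ t, HasDerivAt (momQ Real.sin Real.sin r z)
      ((2 * Real.sin (r t) * (Real.cos (r t) * deriv r t)) • deriv z t +
        (Real.sin (r t) ^ 2) • deriv (deriv z) t) t := by
    intro t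
    have hmom : momQ Real.sin Real.sin r z = fun t => (Real.sin (r t) ^ 2) • deriv z t := by
      funext s
      unfold momQ
      simp
    rw [hmom]
    have ha : HasDerivAt (fun t => Real.sin (r t) ^ 2)
        (2 * Real.sin (r t) * (Real.cos (r t) * deriv r t)) t := by
      have := ((hr1 t).sin).pow 2
      refine this.congr_deriv ?_
      norm_num
    have hb := ha.smul (hz2 t)
    refine hb.congr_deriv ?_
    rw [add_comm]
  have hmeq : ∀ t, ∃ l : ℝ, (2 * Real.sin (r t) * (Real.cos (r t) * deriv r t)) • deriv z t +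
        (Real.sin (r t) ^ 2) • deriv (deriv z) t = l • z t := by
    intro t
    obtain ⟨l, hl⟩ := h2 t
    refine ⟨l, ?_⟩
    rw [(hm t).deriv] at hl
    rw [← hl]
    simp
  set G : ℝ → Hn n := fun t => Real.sin (r t) • deriv (deriv z) t +
    (2 * Real.cos (r t) * deriv r t) • deriv z t +
    (Real.sin (r t) * ‖deriv z t‖ ^ 2) • z t with hG
  have hsG : ∀ t, Real.sin (r t) • G t = 0 := by
    intro t
    obtain ⟨l, hl⟩ := hmeq t
    have hlv : l = -(Real.sin (r t) ^ 2 * ‖deriv z t‖ ^ 2) := by
      have h7 := congrArg (fun w => (inner ℝ (z t) w : ℝ)) hl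
      simp only [inner_add_right, inner_smul_right, hzz, hzz2, mul_zero, zero_add] at h7
      rw [real_inner_self_eq_norm_sq, hnz] at h7
      linarith
    have h8 : Real.sin (r t) • G t =
        ((2 * Real.sin (r t) * (Real.cos (r t) * deriv r t)) • deriv z t +
        (Real.sin (r t) ^ 2) • deriv (deriv z) t) +
        (Real.sin (r t) ^ 2 * ‖deriv z t‖ ^ 2) • z t := by
      simp only [hG]
      module
    rw [h8, hl, hlv, ← add_smul]
    simp
  have hGc : Continuous G := by
    have c1 : Continuous (deriv (deriv z)) := by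
      have h2' : ContDiff ℝ (1 + 1) z := by
        have : (1 + 1 : WithTop ℕ∞) = 2 := by norm_num
        rw [this]; exact hz
      have h3' : ContDiff ℝ 1 (deriv z) := (contDiff_succ_iff_deriv.1 h2').2.2
      exact h3'.continuous_deriv (by norm_num)
    have c2 : Continuous (deriv z) := hz.continuous_deriv (by norm_num)
    have c3 : Continuous (deriv r) := hr.continuous_deriv (by norm_num)
    have c4 : Continuous r := hr.continuous
    have c5 : Continuous z := hz.continuous
    simp only [hG]
    fun_prop
  have hG0 : ∀ t, G t = 0 := by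
    have hcl : IsClosed {t | G t = 0} := isClosed_eq hGc continuous_const
    have hsub : {t | Real.sin (r t) ≠ 0} ⊆ {t | G t = 0} := by
      intro t ht
      have := hsG t
      rcases smul_eq_zero.1 this with h | h
      · exact absurd h ht
      · exact h
    have hdense : Dense {t | Real.sin (r t) ≠ 0} := by
      have hcs : {t | Real.sin (r t) ≠ 0} = {t | Real.sin (r t) = 0}ᶜ := rfl
      rw [hcs, ← interior_eq_empty_iff_dense_compl, eq_empty_iff_forall_notMem]
      intro t ht
      have hev : (fun s => Real.sin (r s)) =ᶠ[nhds t] fun _ => (0 : ℝ) :=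
        mem_interior_iff_mem_nhds.1 ht
      have hd0 := ((hr1 t).sin).unique ((hasDerivAt_const t (0 : ℝ)).congr_of_eventuallyEq hev)
      have hs0 : Real.sin (r t) = 0 := hev.eq_of_nhds
      have hcne : Real.cos (r t) ≠ 0 := by
        intro h
        have := Real.sin_sq_add_cos_sq (r t)
        rw [hs0, h] at this
        norm_num at this
      have hr0 : deriv r t = 0 := by
        rcases mul_eq_zero.1 hd0 with h | h
        · exact absurd h hcne
        · exact h
      have := e3 t
      rw [hr0, hs0] at this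
      have hv2 : 0 < v ^ 2 := by positivity
      rw [← this] at hv2
      norm_num at hv2
    intro t
    have := hcl.closure_subset_iff.2 hsub
    rw [hdense.closure_eq] at this
    exact this (mem_univ t)
  by_cases hz0 : Real.sin (r 0) = 0
  · -- use the second component
    have hc0 : Real.cos (r 0) ≠ 0 := by
      intro h
      have := Real.sin_sq_add_cos_sq (r 0)
      rw [hz0, h] at this
      norm_num at this
    refine Rot.TG.osc_period hv hT (g := fun t => Real.cos (r t))
      (g' := fun t => -Real.sin (r t) * deriv r t) (fun t => (hr1 t).cos) ?_ hp2 hc0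
    intro t
    refine (((hr1 t).sin.neg).mul (hr2 t)).congr_deriv ?_
    have hc : Real.cos (r t) ^ 2 = 1 - Real.sin (r t) ^ 2 := by
      have := Real.sin_sq_add_cos_sq (r t); linarith
    have hval : (-fun x => Real.sin (r x)) t = -Real.sin (r t) := rfl
    rw [hval, e1, ← e3 t]
    ring
  · set x : Hn n := z 0 with hx
    refine Rot.TG.osc_period hv hT
      (g := fun t => (inner ℝ x (Real.sin (r t) • z t) : ℝ))
      (g' := fun t => (inner ℝ x ((Real.cos (r t) * deriv r t) • z t +
        Real.sin (r t) • deriv z t) : ℝ)) ?_ ?_ ?_ ?_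
    · intro t
      refine innerQ_hasDeriv x ?_
      have hb := ((hr1 t).sin).smul (hz1 t)
      refine hb.congr_deriv ?_
      rw [add_comm]
    · intro t
      have hA : HasDerivAt (fun t => (Real.cos (r t) * deriv r t) • z t +
        Real.sin (r t) • deriv z t) ((-v ^ 2) • (Real.sin (r t) • z t)) t := by
        have hb := ((hr1 t).sin).smul (hz2 t)
        have hc := (((hr1 t).cos).mul (hr2 t)).smul (hz1 t)
        refine (hc.add hb).congr_deriv ?_
        have hg := hG0 t
        simp only [hG] at hg
        have hg2 : Real.sin (r t) • deriv (deriv z) t =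
            -((2 * Real.cos (r t) * deriv r t) • deriv z t +
              (Real.sin (r t) * ‖deriv z t‖ ^ 2) • z t) := by
          rw [eq_neg_iff_add_eq_zero, ← hg]; abel
        have hc2 : Real.cos (r t) ^ 2 = 1 - Real.sin (r t) ^ 2 := by
          have := Real.sin_sq_add_cos_sq (r t); linarith
        have hco : (-Real.sin (r t) * deriv r t * deriv r t + Real.cos (r t) *
            (Real.sin (r t) * Real.cos (r t) * ‖deriv z t‖ ^ 2)) -
            (Real.sin (r t) * ‖deriv z t‖ ^ 2) = -v ^ 2 * Real.sin (r t) := by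
          rw [← e3 t]
          linear_combination (Real.sin (r t) * ‖deriv z t‖ ^ 2) * hc2
        have hval : ((fun x => Real.cos (r x)) * deriv r) t = Real.cos (r t) * deriv r t := rfl
        rw [hg2, e1, smul_smul, ← hco, hval]
        module
      refine (innerQ_hasDeriv x hA).congr_deriv ?_
      rw [inner_smul_right]
    · intro t
      simp only [hp1]
    · rw [inner_smul_right, ← hx, real_inner_self_eq_norm_sq, hx, hnz]
      simpa using hz0

end Pool.Agent.Helper9ST
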